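import Mathlib
import Pool.Agent.U129.PC.Main

/-!
# Peres' cutoff conjecture fails for random walks on cycles

`law μ t` is the `t`-fold convolution power of `μ`, `tv` the total variation distance, `unif` the
uniform distribution, `Tmix μ ε = min {t : tv (law μ t) unif ≤ ε}` and `unifOn S` the uniform
distribution on the set `S`; they are defined, for all finite abelian groups, in
`Pool.Agent.U129.PC.Basic` and `Pool.Agent.U129.PC.Block`.

The counterexample is a simple random walk on a simple undirected Cayley graph of a cyclic group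
`Z/n = K × H`, with step set `(X × (H \ {0})) ∪ ((K \ {0}) × {0})`, where `X` is a product of
crosses `({0} × A_i) ∪ (B_i × {0})` in `K = ∏ B_i × A_i` and where `B_i`, `A_i`, `H` are cyclic
groups of coprime orders.  A step of the second kind makes the first coordinate uniform and has
probability of order `1 / r`; without it the walk is far from uniform for much longer than `r`
steps, although the spectral gap is at least `1 / 5`.
-/

set_option autoImplicit false

namespace Pool.Agent.Results.MP_ee50b4_pr.CayleyCounterexample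

open Finset Filter Topology
open Pool.Agent.U129.PC

section Definitions

variable {n : ℕ} [NeZero n]

/-- The eigenvalues `∑ x, μ x e^{2 π i j x / n}` of the walk on `Z/n` driven by `μ`. -/
noncomputable def eigenvalue (μ : ZMod n → ℝ) (j : ZMod n) : ℂ :=
  ∑ x : ZMod n, (μ x : ℂ) * Complex.exp (2 * Real.pi * Complex.I * (j.val * x.val : ℕ) / n)

/-- The spectral gap `1 - max_{j ≠ 0} |eigenvalue μ j|`. -/
noncomputable def gap (μ : ZMod n → ℝ) : ℝ := 1 - ⨆ j : {j : ZMod n // j ≠ 0}, ‖eigenvalue μ j‖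

/-- The relaxation time. -/
noncomputable def Trel (μ : ZMod n → ℝ) : ℝ := 1 / gap μ

/-- The support of `μ` is not contained in a coset of a proper subgroup. -/
def Ergodic (μ : ZMod n → ℝ) : Prop :=
  ∀ (L : AddSubgroup (ZMod n)) (a : ZMod n), (∀ x, μ x ≠ 0 → x - a ∈ L) → L = ⊤

end Definitions

/-- Total variation cutoff for a sequence of walks. -/
def Cutoff (n : ℕ → ℕ) [∀ k, NeZero (n k)] (μ : ∀ k, ZMod (n k) → ℝ) : Prop :=
  ∀ ε : ℝ, 0 < ε → ε < 1 / 2 →
    Tendsto (fun k => (Tmix (μ k) ε : ℝ) / Tmix (μ k) (1 - ε)) atTop (𝓝 1)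

/-- The product condition `T_rel / T_mix(1/2) → 0`. -/
def ProductCondition (n : ℕ → ℕ) [∀ k, NeZero (n k)] (μ : ∀ k, ZMod (n k) → ℝ) : Prop :=
  Tendsto (fun k => Trel (μ k) / Tmix (μ k) (1 / 2)) atTop (𝓝 0)

/-- The assertion of the question. -/
def PeresConjecture : Prop :=
  ∀ (n : ℕ → ℕ) [∀ k, NeZero (n k)] (μ : ∀ k, ZMod (n k) → ℝ), Tendsto n atTop atTop →
    (∀ k, IsProb (μ k)) → (∀ k, Ergodic (μ k)) → (ProductCondition n μ ↔ Cutoff n μ)

/-! ### Transfer to `Z/n` -/

lemma exp_eq {n : ℕ} [NeZero n] (j x : ZMod n) :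
    Complex.exp (2 * Real.pi * Complex.I * (j.val * x.val : ℕ) / n) = ZMod.stdAddChar (j * x) := by
  have h : j * x = (((j.val * x.val : ℕ) : ℤ) : ZMod n) := by
    push_cast
    rw [ZMod.natCast_zmod_val, ZMod.natCast_zmod_val]
  rw [h, ZMod.stdAddChar_coe]
  push_cast
  rfl

lemma unifOn_equiv {G G' : Type} [AddCommGroup G] [Fintype G] [DecidableEq G]
    [AddCommGroup G'] [Fintype G'] [DecidableEq G'] (e : G' ≃+ G) (S : Finset G) :
    unifOn (Finset.univ.filter fun x => e x ∈ S) = fun x => unifOn S (e x) := by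
  have hc : (Finset.univ.filter fun x => e x ∈ S).card = S.card := by
    refine Finset.card_bij (fun x _ => e x) ?_ ?_ ?_
    · intro x hx
      simpa using hx
    · intro x _ y _ hxy
      exact e.injective hxy
    · intro y hy
      exact ⟨e.symm y, by simpa using hy, by simp⟩
  funext x
  unfold unifOn
  rw [hc]
  simp

lemma trel_le {n : ℕ} [NeZero n] (hn : 2 ≤ n) {G : Type} [AddCommGroup G] [Fintype G]
    [DecidableEq G] (e : ZMod n ≃+ G) (S : Finset G) (hS : 0 < S.card)
    (h : ∀ χ : G → ℂ, IsChar χ → (∀ x, ‖χ x‖ ≤ 1) → (∃ a, χ a ≠ 1) →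
      ‖∑ p ∈ S, χ p‖ ≤ 4 / 5 * S.card) :
    0 < Trel (unifOn (Finset.univ.filter fun x => e x ∈ S)) ∧
    Trel (unifOn (Finset.univ.filter fun x => e x ∈ S)) ≤ 5 := by
  have hev : ∀ j : ZMod n, j ≠ 0 →
      ‖eigenvalue (unifOn (Finset.univ.filter fun x => e x ∈ S)) j‖ ≤ 4 / 5 := by
    intro j hj
    set χ : G → ℂ := fun g => ZMod.stdAddChar (j * e.symm g) with hχ
    have hc : IsChar χ := by
      refine ⟨by simp [hχ], fun x y => ?_⟩
      simp only [hχ, map_add, mul_add, AddChar.map_add_eq_mul]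
    have hn1 : ∀ x, ‖χ x‖ ≤ 1 := fun x => (AddChar.norm_apply _ _).le
    have hne : ∃ a, χ a ≠ 1 := by
      refine ⟨e 1, ?_⟩
      simp only [hχ, AddEquiv.symm_apply_apply, mul_one]
      intro h1
      apply hj
      apply ZMod.injective_stdAddChar
      rw [h1, AddChar.map_zero_eq_one]
    have h1 := h χ hc hn1 hne
    have h2 : eigenvalue (unifOn (Finset.univ.filter fun x => e x ∈ S)) j =
        (1 / (S.card : ℂ)) * ∑ p ∈ S, χ p := by
      unfold eigenvalue
      rw [unifOn_equiv e S]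
      simp_rw [exp_eq]
      have h3 : ∑ x : ZMod n, ((unifOn S (e x) : ℝ) : ℂ) * ZMod.stdAddChar (j * x) =
          ∑ g : G, ((unifOn S g : ℝ) : ℂ) * χ g := by
        rw [← e.toEquiv.sum_comp]
        refine Finset.sum_congr rfl fun x _ => ?_
        simp [hχ]
      rw [h3]
      unfold unifOn
      rw [Finset.mul_sum]
      rw [← Finset.sum_filter_add_sum_filter_not Finset.univ (fun g => g ∈ S)]
      rw [Finset.sum_eq_zero (s := Finset.univ.filter fun g => ¬ g ∈ S)]
      · rw [add_zero]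
        have : (Finset.univ.filter fun g => g ∈ S) = S := by ext g; simp
        rw [this]
        refine Finset.sum_congr rfl fun g hg => ?_
        rw [if_pos hg]
        push_cast
        rfl
      · intro g hg
        rw [Finset.mem_filter] at hg
        rw [if_neg hg.2]
        simp
    rw [h2, norm_mul]
    have hS' : (0 : ℝ) < S.card := by exact_mod_cast hS
    have h4 : ‖(1 / (S.card : ℂ))‖ = 1 / (S.card : ℝ) := by
      rw [norm_div, norm_one]
      simp
    rw [h4, one_div, inv_mul_le_iff₀ hS']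
    linarith
  have : Nonempty {j : ZMod n // j ≠ 0} := by
    have : Nontrivial (ZMod n) := ZMod.nontrivial_iff.2 (by omega)
    exact ⟨⟨1, one_ne_zero⟩⟩
  have hs : (⨆ j : {j : ZMod n // j ≠ 0},
      ‖eigenvalue (unifOn (Finset.univ.filter fun x => e x ∈ S)) j‖) ≤ 4 / 5 :=
    ciSup_le fun j => hev j j.2
  unfold Trel gap
  refine ⟨by apply one_div_pos.2; linarith, ?_⟩
  rw [div_le_iff₀ (by linarith)]
  linarith

lemma exists_primes (L : ℕ) (hL : L ≠ 0) : ∃ f : ℕ → ℕ, (∀ j, (f j).Prime) ∧ L < f 0 ∧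
    ∀ j, f j < f (j + 1) ∧ f (j + 1) ≤ 2 * f j := by
  choose! g hg1 hg2 hg3 using Nat.exists_prime_lt_and_le_two_mul
  let f : ℕ → ℕ := fun j => Nat.rec (g L) (fun _ p => g p) j
  have h0 : f 0 = g L := rfl
  have hs : ∀ j, f (j + 1) = g (f j) := fun j => rfl
  have hp : ∀ j, (f j).Prime := by
    intro j
    induction j with
    | zero => rw [h0]; exact hg1 L hL
    | succ j ih => rw [hs]; exact hg1 _ ih.ne_zero
  refine ⟨f, hp, by rw [h0]; exact hg2 L hL, fun j => ⟨?_, ?_⟩⟩
  · rw [hs]; exact hg2 _ (hp j).ne_zero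
  · rw [hs]; exact hg3 _ (hp j).ne_zero

/-- For every `r ≥ 100` there is a simple random walk on a simple Cayley graph of a cyclic group
of order at least `r`, with relaxation time at most `5`, with `T_mix(1/2) ≥ r / 4`, and with
`T_mix(1/4) ≥ (6/5) T_mix(3/4)`. -/
theorem main (r : ℕ) (hr : 100 ≤ r) : ∃ (n : ℕ) (_ : NeZero n) (S : Finset (ZMod n)),
    r ≤ n ∧ 0 ∉ S ∧ (∀ x ∈ S, -x ∈ S) ∧ S.Nonempty ∧ Ergodic (unifOn S) ∧
    0 < Trel (unifOn S) ∧ Trel (unifOn S) ≤ 5 ∧ (r : ℝ) / 4 ≤ Tmix (unifOn S) (1 / 2) ∧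
    (6 / 5 : ℝ) * Tmix (unifOn S) (3 / 4) ≤ Tmix (unifOn S) (1 / 4) ∧
    0 < Tmix (unifOn S) (1 / 4) := by
  obtain ⟨m, hm⟩ : ∃ m : ℕ, m = 100 * 2 ^ (2 * r + 2) := ⟨_, rfl⟩
  have hm0 : 0 < m := by rw [hm]; positivity
  obtain ⟨f, hfp, hf0, hfs⟩ := exists_primes (20000 * m * (r + 1)) (by positivity)
  have hmono : StrictMono f := strictMono_nat_of_lt_succ fun j => (hfs j).1
  have hge : ∀ j, 20000 * m * (r + 1) < f j := fun j =>
    lt_of_lt_of_le hf0 (hmono.monotone (Nat.zero_le j))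
  have hcop : ∀ i j, i ≠ j → Nat.Coprime (f i) (f j) := fun i j hij =>
    (Nat.coprime_primes (hfp i) (hfp j)).2 fun h => hij (hmono.injective h)
  let b : Fin m → ℕ := fun i => f (2 * i)
  let a : Fin m → ℕ := fun i => f (2 * i + 1)
  haveI hbN : ∀ i, NeZero (b i) := fun i => ⟨(hfp _).ne_zero⟩
  haveI haN : ∀ i, NeZero (a i) := fun i => ⟨(hfp _).ne_zero⟩
  have hbig : ∀ j, 3 ≤ f j := fun j => by
    have h1 := hge j
    have h2 : 20000 * m * (r + 1) ≥ 3 := by
      calc 3 ≤ 20000 * 1 * 1 := by norm_num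
        _ ≤ 20000 * m * (r + 1) := by gcongr <;> omega
    omega
  -- the group `K`
  set kk := Fintype.card (∀ i, ZMod (b i) × ZMod (a i)) with hkk
  set xx := (XX (fun i => ZMod (b i)) (fun i => ZMod (a i))).card with hxx
  have hxx0 : 0 < xx := XX_nonempty.card_pos
  have hxxk : xx ≤ kk - 1 := by
    have : (0 : ∀ i, ZMod (b i) × ZMod (a i)) = 0 := rfl
    -- the element `(1, 1)` in one coordinate is not in the cross
    have hlt : XX (fun i => ZMod (b i)) (fun i => ZMod (a i)) ⊂ Finset.univ := by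
      rw [Finset.ssubset_univ_iff]
      intro h
      have h1 : (fun _ => (1, 1) : ∀ i, ZMod (b i) × ZMod (a i)) ∈
          XX (fun i => ZMod (b i)) (fun i => ZMod (a i)) := by rw [h]; exact Finset.mem_univ _
      unfold XX at h1
      rw [Fintype.mem_piFinset] at h1
      have h2 := h1 ⟨0, hm0⟩
      simp only [cross, Finset.mem_filter, Finset.mem_univ, true_and] at h2
      have h3 : Nontrivial (ZMod (b ⟨0, hm0⟩)) := ZMod.nontrivial_iff.2 (by
        have := hbig (2 * 0); show f (2 * 0) ≠ 1; omega)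
      have h4 : Nontrivial (ZMod (a ⟨0, hm0⟩)) := ZMod.nontrivial_iff.2 (by
        have := hbig (2 * 0 + 1); show f (2 * 0 + 1) ≠ 1; omega)
      rcases h2 with h2 | h2
      · exact one_ne_zero h2
      · exact one_ne_zero h2
    have := Finset.card_lt_card hlt
    rw [Finset.card_univ] at this
    omega
  have hkk1 : 0 < kk - 1 := lt_of_lt_of_le hxx0 hxxk
  -- the order of `H`
  obtain ⟨e, he1, he2⟩ : ∃ e : ℕ, r * (kk - 1) < xx * 2 ^ (e + 1) ∧
      xx * 2 ^ (e + 1) ≤ 2 * r * (kk - 1) := by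
    have h1 : (1 : ℝ) ≤ r * ((kk - 1 : ℕ) : ℝ) / xx := by
      rw [le_div_iff₀ (by exact_mod_cast hxx0), one_mul]
      have h2 : xx ≤ r * (kk - 1) := by
        calc xx ≤ 1 * (kk - 1) := by omega
          _ ≤ r * (kk - 1) := Nat.mul_le_mul_right _ (by omega)
      exact_mod_cast h2
    obtain ⟨e, h2, h3⟩ := exists_nat_pow_near h1 (by norm_num : (1 : ℝ) < 2)
    have hx : (0 : ℝ) < xx := by exact_mod_cast hxx0
    rw [le_div_iff₀ hx] at h2
    rw [div_lt_iff₀ hx] at h3
    refine ⟨e, ?_, ?_⟩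
    · have : ((r * (kk - 1) : ℕ) : ℝ) < ((xx * 2 ^ (e + 1) : ℕ) : ℝ) := by
        push_cast; linarith
      exact_mod_cast this
    · have : ((xx * 2 ^ (e + 1) : ℕ) : ℝ) ≤ ((2 * r * (kk - 1) : ℕ) : ℝ) := by
        push_cast; rw [pow_succ]; linarith
      exact_mod_cast this
  have hpow : (2 ^ (e + 1) : ℕ) ≠ 0 := by positivity
  haveI : NeZero (2 ^ (e + 1)) := ⟨hpow⟩
  have P : Params m r (fun i => ZMod (b i)) (fun i => ZMod (a i)) (ZMod (2 ^ (e + 1))) :=
    { hr := hr
      hm := hm.ge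
      hB := fun i => by rw [ZMod.card]; exact hge _
      hBA := fun i => by rw [ZMod.card, ZMod.card]; exact (hfs (2 * i)).1.le
      hAB := fun i => by rw [ZMod.card, ZMod.card]; exact (hfs (2 * i)).2
      hH1 := by rw [ZMod.card]; exact he1
      hH2 := by rw [ZMod.card]; exact he2 }
  -- the isomorphism with a cyclic group
  have hab : ∀ i : Fin m, Nat.Coprime (b i) (a i) := fun i =>
    hcop _ _ (by omega)
  have hpair : Pairwise (Function.onFun Nat.Coprime fun i : Fin m => b i * a i) := by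
    intro i j hij
    have hij' : (i : ℕ) ≠ j := fun h => hij (Fin.ext h)
    show Nat.Coprime (b i * a i) (b j * a j)
    apply Nat.Coprime.mul_left
    · apply Nat.Coprime.mul_right
      · exact hcop _ _ (by omega)
      · exact hcop _ _ (by omega)
    · apply Nat.Coprime.mul_right
      · exact hcop _ _ (by omega)
      · exact hcop _ _ (by omega)
  have hodd : ∀ j, Nat.Coprime (f j) 2 := fun j =>
    (Nat.coprime_primes (hfp j) Nat.prime_two).2 (by have := hbig j; omega)
  have hco : Nat.Coprime (∏ i : Fin m, b i * a i) (2 ^ (e + 1)) := by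
    apply Nat.Coprime.pow_right
    apply Nat.Coprime.prod_left
    intro i _
    exact Nat.Coprime.mul_left (hodd _) (hodd _)
  set n := (∏ i : Fin m, b i * a i) * 2 ^ (e + 1) with hn
  have hn0 : n ≠ 0 := by
    rw [hn]
    apply mul_ne_zero _ hpow
    exact Finset.prod_ne_zero_iff.2 fun i _ => mul_ne_zero (hfp _).ne_zero (hfp _).ne_zero
  haveI : NeZero n := ⟨hn0⟩
  let eqv : ZMod n ≃+ ((∀ i, ZMod (b i) × ZMod (a i)) × ZMod (2 ^ (e + 1))) :=
    (ZMod.chineseRemainder hco).toAddEquiv.trans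
      (AddEquiv.prodCongr
        ((ZMod.prodEquivPi (fun i : Fin m => b i * a i) hpair).toAddEquiv.trans
          (AddEquiv.piCongrRight fun i => (ZMod.chineseRemainder (hab i)).toAddEquiv))
        (AddEquiv.refl _))
  obtain ⟨⟨h1, h2, h3, h4⟩, h5, h6⟩ := P.main
  set S := stepSet (XX (fun i => ZMod (b i)) (fun i => ZMod (a i))) (ZMod (2 ^ (e + 1))) with hS
  have hScard : 0 < S.card := by
    rw [hS, card_stepSet, ← hkk]
    omega
  have hcard : Fintype.card ((∀ i, ZMod (b i) × ZMod (a i)) × ZMod (2 ^ (e + 1))) = n := by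
    rw [← Fintype.card_congr eqv.toEquiv, ZMod.card]
  rw [hcard] at h5
  have htm : ∀ ε : ℝ, Tmix (unifOn (Finset.univ.filter fun x => eqv x ∈ S)) ε =
      Tmix (unifOn S) ε := by
    intro ε
    unfold Tmix
    rw [unifOn_equiv eqv S]
    simp_rw [tv_law_equiv eqv]
  have hprob : IsProb (unifOn (Finset.univ.filter fun x => eqv x ∈ S)) := by
    apply isProb_unifOn
    obtain ⟨g, hg⟩ := Finset.card_pos.1 hScard
    exact ⟨eqv.symm g, by simpa using hg⟩
  refine ⟨n, inferInstance, Finset.univ.filter fun x => eqv x ∈ S, h5, ?_, ?_, ?_, ?_, ?_⟩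
  · rw [Finset.mem_filter, map_zero]
    exact fun h => zero_notMem_stepSet _ h.2
  · intro x hx
    rw [Finset.mem_filter] at hx ⊢
    rw [map_neg]
    exact ⟨Finset.mem_univ _, neg_mem_stepSet (fun y hy => XX_neg hy) hx.2⟩
  · obtain ⟨g, hg⟩ := Finset.card_pos.1 hScard
    exact ⟨eqv.symm g, by simpa using hg⟩
  · refine ergodic_of_mix _ hprob ?_
    obtain ⟨t, ht⟩ := h3
    refine ⟨t, ?_⟩
    rw [unifOn_equiv eqv S, tv_law_equiv eqv]
    exact ht
  · have h7 := trel_le (by omega) eqv S hScard h6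
    rw [htm, htm, htm]
    exact ⟨h7.1, h7.2, h1, h2, h4⟩

/-- **Peres' conjecture fails for random walks on cycles.** There are `n_k → ∞` and sets
`S_k ⊆ Z/n_k`, symmetric and not containing `0`, such that the simple random walk on the Cayley
graph of `Z/n_k` with respect to `S_k` is ergodic and satisfies the product condition (it even has
`T_rel ≤ 5` while `T_mix(1/2) → ∞`), but `T_mix(1/4) ≥ (6/5) T_mix(3/4)` for all `k`, so that there
is no cutoff. In particular the assertion of the question is false. -/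
theorem result :
    (∃ (n : ℕ → ℕ) (_ : ∀ k, NeZero (n k)) (S : ∀ k, Finset (ZMod (n k))),
      Tendsto n atTop atTop ∧
      (∀ k, 0 ∉ S k ∧ (∀ x ∈ S k, -x ∈ S k) ∧ (S k).Nonempty) ∧
      (∀ k, Ergodic (unifOn (S k))) ∧
      (∀ k, 0 < Trel (unifOn (S k)) ∧ Trel (unifOn (S k)) ≤ 5) ∧
      Tendsto (fun k => Tmix (unifOn (S k)) (1 / 2)) atTop atTop ∧
      (∀ k, (6 / 5 : ℝ) * Tmix (unifOn (S k)) (3 / 4) ≤ Tmix (unifOn (S k)) (1 / 4)) ∧
      ProductCondition n (fun k => unifOn (S k)) ∧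
      ¬ Cutoff n (fun k => unifOn (S k))) ∧
    ¬ PeresConjecture := by
  have key : ∃ (n : ℕ → ℕ) (_ : ∀ k, NeZero (n k)) (S : ∀ k, Finset (ZMod (n k))),
      Tendsto n atTop atTop ∧
      (∀ k, 0 ∉ S k ∧ (∀ x ∈ S k, -x ∈ S k) ∧ (S k).Nonempty) ∧
      (∀ k, Ergodic (unifOn (S k))) ∧
      (∀ k, 0 < Trel (unifOn (S k)) ∧ Trel (unifOn (S k)) ≤ 5) ∧
      Tendsto (fun k => Tmix (unifOn (S k)) (1 / 2)) atTop atTop ∧
      (∀ k, (6 / 5 : ℝ) * Tmix (unifOn (S k)) (3 / 4) ≤ Tmix (unifOn (S k)) (1 / 4)) ∧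
      ProductCondition n (fun k => unifOn (S k)) ∧
      ¬ Cutoff n (fun k => unifOn (S k)) := by
    choose n hn S h1 h2 h3 h4 h5 h6 h7 h8 h9 h10 using fun k : ℕ => main (k + 100) (by omega)
    have hlim : Tendsto (fun k => (Tmix (unifOn (S k)) (1 / 2) : ℝ)) atTop atTop := by
      refine tendsto_atTop_mono h8 ?_
      refine Tendsto.atTop_div_const (by norm_num) ?_
      exact tendsto_natCast_atTop_atTop.comp (tendsto_add_atTop_nat 100)
    refine ⟨n, hn, S, ?_, fun k => ⟨h2 k, h3 k, h4 k⟩, h5, fun k => ⟨h6 k, h7 k⟩, ?_, h9, ?_, ?_⟩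
    · exact tendsto_atTop_mono h1 (tendsto_add_atTop_nat 100)
    · exact tendsto_natCast_atTop_iff.1 hlim
    · unfold ProductCondition
      have h11 : Tendsto (fun k => 5 / (Tmix (unifOn (S k)) (1 / 2) : ℝ)) atTop (𝓝 0) :=
        hlim.const_div_atTop 5
      refine squeeze_zero (fun k => ?_) (fun k => ?_) h11
      · exact div_nonneg (h6 k).le (Nat.cast_nonneg _)
      · exact div_le_div_of_nonneg_right (h7 k) (Nat.cast_nonneg _)
    · intro hcut
      have h12 := hcut (1 / 4) (by norm_num) (by norm_num)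
      rw [show (1 : ℝ) - 1 / 4 = 3 / 4 by norm_num] at h12
      have h13 : ∀ᶠ k in atTop,
          |(Tmix (unifOn (S k)) (1 / 4) : ℝ) / Tmix (unifOn (S k)) (3 / 4) - 1| < 1 / 10 := by
        have := (Metric.tendsto_atTop.1 h12) (1 / 10) (by norm_num)
        obtain ⟨N, hN⟩ := this
        filter_upwards [eventually_ge_atTop N] with k hk
        have := hN k hk
        rwa [Real.dist_eq] at this
      obtain ⟨k, hk⟩ := h13.exists
      have h14 := h9 k
      have h15 : (0 : ℝ) < Tmix (unifOn (S k)) (1 / 4) := by exact_mod_cast h10 k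
      rcases Nat.eq_zero_or_pos (Tmix (unifOn (S k)) (3 / 4)) with h0 | h0
      · rw [h0] at hk
        norm_num at hk
      · have h16 : (0 : ℝ) < Tmix (unifOn (S k)) (3 / 4) := by exact_mod_cast h0
        have h17 : (6 / 5 : ℝ) ≤
            (Tmix (unifOn (S k)) (1 / 4) : ℝ) / Tmix (unifOn (S k)) (3 / 4) := by
          rw [le_div_iff₀ h16]; exact h14
        rw [abs_lt] at hk
        linarith [hk.2]
  refine ⟨key, ?_⟩
  intro hP
  obtain ⟨n, hn, S, h1, h2, h3, _, _, _, h7, h8⟩ := key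
  exact h8 ((hP n (fun k => unifOn (S k)) h1 (fun k => isProb_unifOn (h2 k).2.2) h3).1 h7)

end Pool.Agent.Results.MP_ee50b4_pr.CayleyCounterexample
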